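import Pool.Agent.N708.MX.Stm

/-! # Almost unitary matrices are close to unitary matrices (helper55, project MX of helper708) -/

set_option autoImplicit false

namespace Pool.Agent.N55.MX

open Pool.Agent.N708.MX

section cstar

variable {B : Type} [CStarAlgebra B] [PartialOrder B] [StarOrderedRing B] [Nontrivial B]

theorem polar_aux (S : B) (η : ℝ) (hη0 : 0 ≤ η) (hη : η ≤ 1 / 2) (h : ‖star S * S - 1‖ ≤ η) :
    ∃ u : B, star u * u = 1 ∧ ‖S - u‖ ≤ η := by
  have hsa : IsSelfAdjoint (star S * S) := IsSelfAdjoint.star_mul_self S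
  have hsp : ∀ x ∈ spectrum ℝ (star S * S), |x - 1| ≤ η := by
    intro x hx
    have h1 : x - 1 ∈ spectrum ℝ (star S * S - 1) := by
      have h2 := spectrum.sub_singleton_eq (R := ℝ) (star S * S) (1 : ℝ)
      rw [map_one] at h2
      rw [← h2]
      exact Set.sub_mem_sub hx rfl
    have h2 := spectrum.norm_le_norm_of_mem h1
    rw [Real.norm_eq_abs] at h2
    exact h2.trans h
  have hpos : ∀ x ∈ spectrum ℝ (star S * S), 0 < x := by
    intro x hx
    have := abs_le.1 (hsp x hx)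
    linarith [this.1]
  have hc1 : ContinuousOn (fun x : ℝ => (Real.sqrt x)⁻¹) (spectrum ℝ (star S * S)) := by
    refine Real.continuous_sqrt.continuousOn.inv₀ fun x hx => ?_
    exact (Real.sqrt_pos.2 (hpos x hx)).ne'
  have hc2 : ContinuousOn (fun x : ℝ => Real.sqrt x) (spectrum ℝ (star S * S)) :=
    Real.continuous_sqrt.continuousOn
  set b : B := cfc (fun x : ℝ => (Real.sqrt x)⁻¹) (star S * S) with hb
  set r : B := cfc (fun x : ℝ => Real.sqrt x) (star S * S) with hr
  have hbs : star b = b := (cfc_predicate (R := ℝ) _ (star S * S) : IsSelfAdjoint b).star_eq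
  have hid : cfc (fun x : ℝ => x) (star S * S) = star S * S := cfc_id' ℝ (star S * S)
  have hrr : r * r = star S * S := by
    rw [hr, ← cfc_mul _ _ _ hc2 hc2]
    conv_rhs => rw [← hid]
    refine cfc_congr fun x hx => ?_
    exact Real.mul_self_sqrt (hpos x hx).le
  have hbr : b * r = 1 := by
    rw [hr, hb, ← cfc_mul _ _ _ hc1 hc2, ← cfc_one ℝ (star S * S)]
    refine cfc_congr fun x hx => ?_
    exact inv_mul_cancel₀ (Real.sqrt_pos.2 (hpos x hx)).ne'
  have hrb : r * b = 1 := by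
    rw [hr, hb, ← cfc_mul _ _ _ hc2 hc1, ← cfc_one ℝ (star S * S)]
    refine cfc_congr fun x hx => ?_
    exact mul_inv_cancel₀ (Real.sqrt_pos.2 (hpos x hx)).ne'
  have hu : star (S * b) * (S * b) = 1 := by
    rw [star_mul, hbs]
    calc b * star S * (S * b) = b * (star S * S) * b := by simp only [mul_assoc]
      _ = b * (r * r) * b := by rw [hrr]
      _ = (b * r) * (r * b) := by simp only [mul_assoc]
      _ = 1 := by rw [hbr, hrb, one_mul]
  have hun : ‖S * b‖ ≤ 1 := by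
    have h1 : ‖S * b‖ * ‖S * b‖ = 1 := by
      rw [← CStarRing.norm_star_mul_self, hu, norm_one]
    nlinarith [norm_nonneg (S * b)]
  refine ⟨S * b, hu, ?_⟩
  have e : S - S * b = (S * b) * (r - 1) := by
    rw [mul_sub, mul_one, mul_assoc, hbr, mul_one]
  have hr1 : ‖r - 1‖ ≤ η := by
    have e1 : r - 1 = cfc (fun x : ℝ => Real.sqrt x - 1) (star S * S) := by
      have h1 : cfc (fun _ : ℝ => (1 : ℝ)) (star S * S) = 1 := cfc_one ℝ (star S * S)
      rw [hr, ← h1, ← cfc_sub _ _ _ hc2 continuousOn_const]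
    rw [e1]
    refine norm_cfc_le hη0 fun x hx => ?_
    rw [Real.norm_eq_abs]
    have h1 := hsp x hx
    have h0 := hpos x hx
    have h2 : (Real.sqrt x - 1) * (Real.sqrt x + 1) = x - 1 := by
      have := Real.mul_self_sqrt h0.le
      nlinarith
    have h3 : |Real.sqrt x - 1| * |Real.sqrt x + 1| ≤ η := by
      rw [← abs_mul, h2]
      exact h1
    have h4 : 1 ≤ |Real.sqrt x + 1| := by
      rw [abs_of_nonneg (by positivity)]
      have := Real.sqrt_nonneg x
      linarith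
    calc |Real.sqrt x - 1| = |Real.sqrt x - 1| * 1 := (mul_one _).symm
      _ ≤ |Real.sqrt x - 1| * |Real.sqrt x + 1| := mul_le_mul_of_nonneg_left h4 (abs_nonneg _)
      _ ≤ η := h3
  rw [e]
  calc ‖S * b * (r - 1)‖ ≤ ‖S * b‖ * ‖r - 1‖ := norm_mul_le _ _
    _ ≤ 1 * η := mul_le_mul hun hr1 (norm_nonneg _) zero_le_one
    _ = η := one_mul η

end cstar

theorem t_POLAR : S_POLAR := by
  intro d T η hη0 hη h
  rcases Nat.eq_zero_or_pos d with rfl | hd
  · refine ⟨1, ?_⟩
    have : T - (1 : Matrix.unitaryGroup (Fin 0) ℂ).val = 0 := Subsingleton.elim _ _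
    rw [this]
    unfold opn
    rw [map_zero, norm_zero]
    exact hη0
  have : Nonempty (Fin d) := ⟨⟨0, hd⟩⟩
  have : Nontrivial (EuclideanSpace ℂ (Fin d)) := inferInstance
  have : Nontrivial (EuclideanSpace ℂ (Fin d) →L[ℂ] EuclideanSpace ℂ (Fin d)) := inferInstance
  have h' : ‖star (Matrix.toEuclideanCLM (𝕜 := ℂ) T) * Matrix.toEuclideanCLM (𝕜 := ℂ) T - 1‖ ≤
      η := by
    rw [← map_star, ← map_mul, ← map_one (Matrix.toEuclideanCLM (n := Fin d) (𝕜 := ℂ)), ← map_sub]
    exact h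
  obtain ⟨u, hu, hn⟩ := polar_aux _ η hη0 hη h'
  have hu2 : star ((Matrix.toEuclideanCLM (n := Fin d) (𝕜 := ℂ)).symm u) *
      (Matrix.toEuclideanCLM (n := Fin d) (𝕜 := ℂ)).symm u = 1 := by
    rw [← map_star, ← map_mul, hu, map_one]
  refine ⟨⟨(Matrix.toEuclideanCLM (n := Fin d) (𝕜 := ℂ)).symm u,
    Matrix.mem_unitaryGroup_iff'.2 hu2⟩, ?_⟩
  unfold opn
  rw [map_sub]
  change ‖_ - Matrix.toEuclideanCLM (𝕜 := ℂ)
    ((Matrix.toEuclideanCLM (n := Fin d) (𝕜 := ℂ)).symm u)‖ ≤ η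
  rw [StarAlgEquiv.apply_symm_apply]
  exact hn

end Pool.Agent.N55.MX
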