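import Pool.Agent.N708.MX.Stm

/-! # Two subspaces of equal dimension (helper55, project MX of helper708) -/

set_option autoImplicit false

namespace Pool.Agent.N55.MX

open Pool.Agent.N708.MX

theorem t_SUB : S_SUB := by
  intro H _ _ _ V V' δ hδ0 hδ hfr hap v hv
  have : CompleteSpace H := FiniteDimensional.complete ℂ H
  -- the projection is almost the identity on `V'`
  have h1 : ∀ w ∈ V', ‖w - V.starProjection w‖ ≤ δ * ‖w‖ := by
    intro w hw
    obtain ⟨x, hx, hwx⟩ := hap w hw
    refine le_trans ?_ hwx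
    have h2 : w - x = (w - V.starProjection w) + (V.starProjection w - x) := by abel
    have h3 : inner ℂ (w - V.starProjection w) (V.starProjection w - x) = 0 :=
      Submodule.inner_left_of_mem_orthogonal
        (V.sub_mem (Submodule.starProjection_apply_mem V w) hx)
        (Submodule.sub_starProjection_mem_orthogonal w)
    have h4 : ‖w - x‖ ^ 2 = ‖w - V.starProjection w‖ ^ 2 + ‖V.starProjection w - x‖ ^ 2 := by
      rw [h2, sq, sq, sq]
      exact norm_add_sq_eq_norm_sq_add_norm_sq_of_inner_eq_zero _ _ h3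
    have h5 : ‖w - V.starProjection w‖ ^ 2 ≤ ‖w - x‖ ^ 2 := by
      rw [h4]
      have := sq_nonneg ‖V.starProjection w - x‖
      linarith
    exact le_of_sq_le_sq h5 (norm_nonneg _)
  let f : V' →ₗ[ℂ] V := (V.orthogonalProjectionOnto : H →ₗ[ℂ] V).comp V'.subtype
  have hf : ∀ w : V', ((f w : V) : H) = V.starProjection (w : H) := fun w => rfl
  have hb : ∀ w : V', ‖(w : H)‖ ≤ 2 * ‖((f w : V) : H)‖ := by
    intro w
    have h2 := h1 w w.2
    rw [← hf] at h2
    have h3 : ‖(w : H)‖ ≤ ‖(w : H) - (f w : V)‖ + ‖((f w : V) : H)‖ := by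
      have := norm_add_le ((w : H) - (f w : V)) ((f w : V) : H)
      rwa [sub_add_cancel] at this
    have h4 : δ * ‖(w : H)‖ ≤ 1 / 2 * ‖(w : H)‖ :=
      mul_le_mul_of_nonneg_right hδ (norm_nonneg _)
    linarith
  have hinj : Function.Injective f := by
    rw [← LinearMap.ker_eq_bot, LinearMap.ker_eq_bot']
    intro w hw
    have h2 := hb w
    rw [hw] at h2
    have h3 : ‖(w : H)‖ ≤ 0 := by simpa using h2
    exact Subtype.ext (norm_le_zero_iff.1 h3)
  have hsurj : Function.Surjective f :=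
    (LinearMap.injective_iff_surjective_of_finrank_eq_finrank hfr.symm).1 hinj
  obtain ⟨w, hw⟩ := hsurj ⟨v, hv⟩
  have hwv : V.starProjection (w : H) = v := by
    rw [← hf, hw]
  refine ⟨w, w.2, ?_⟩
  have h2 := h1 w w.2
  rw [hwv, norm_sub_rev] at h2
  have h3 := hb w
  rw [hf, hwv] at h3
  have h4 : δ * ‖(w : H)‖ ≤ δ * (2 * ‖v‖) := mul_le_mul_of_nonneg_left h3 hδ0
  linarith

end Pool.Agent.N55.MX
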